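import Mathlib

set_option autoImplicit false

namespace Pool.Agent.Results.MP_cfa423_co.First

open List

def Contains (w σ : List ℕ) : Prop :=
  ∃ u : List ℕ, u.Sublist w ∧ u.length = σ.length ∧
    ∀ i j, i < σ.length → j < σ.length → (u.getD i 0 < u.getD j 0 ↔ σ.getD i 0 < σ.getD j 0)

def Avoids (T : Set (List ℕ)) (w : List ℕ) : Prop := ∀ σ ∈ T, ¬ Contains w σ

open Classical in
noncomputable def run (T : Set (List ℕ)) : List ℕ → List ℕ → List ℕ
  | st, [] => st
  | [], x :: r => run T [x] r
  | y :: st, x :: r =>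
    if Avoids T (x :: y :: st) then run T (x :: y :: st) r else y :: run T st (x :: r)
termination_by st inp => 2 * inp.length + st.length

noncomputable def sortMap (T : Set (List ℕ)) (w : List ℕ) : List ℕ := run T [] w

def T0 : Set (List ℕ) := {[2, 3, 1], [2, 1, 3]}

theorem av (w : List ℕ) : Avoids T0 w ↔
    ∀ a b c, [a, b, c].Sublist w → ¬ ((b < a ∧ a < c) ∨ (c < a ∧ a < b)) := by
  constructor
  · rintro h a b c hs (e | e)
    · refine h [2, 1, 3] (by simp [T0]) ⟨_, hs, rfl, fun i j hi hj => ?_⟩
      simp only [length_cons, length_nil] at hi hj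
      interval_cases i <;> interval_cases j <;> simp <;> omega
    · refine h [2, 3, 1] (by simp [T0]) ⟨_, hs, rfl, fun i j hi hj => ?_⟩
      simp only [length_cons, length_nil] at hi hj
      interval_cases i <;> interval_cases j <;> simp <;> omega
  · rintro h σ hσ ⟨u, hs, hl, e⟩
    simp only [T0, Set.mem_insert_iff, Set.mem_singleton_iff] at hσ
    rcases hσ with rfl | rfl
    · obtain ⟨a, b, c, rfl⟩ := length_eq_three.1 hl
      exact h a b c hs (Or.inr ⟨(e 2 0 (by simp) (by simp)).2 (by simp),
        (e 0 1 (by simp) (by simp)).2 (by simp)⟩)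
    · obtain ⟨a, b, c, rfl⟩ := length_eq_three.1 hl
      exact h a b c hs (Or.inl ⟨(e 1 0 (by simp) (by simp)).2 (by simp),
        (e 0 2 (by simp) (by simp)).2 (by simp)⟩)

theorem av_sub {u w : List ℕ} (h : Avoids T0 w) (hs : u.Sublist w) : Avoids T0 u :=
  (av u).2 fun a b c e => (av w).1 h a b c (e.trans hs)

theorem av_cons {x : ℕ} {w : List ℕ} (h : Avoids T0 w)
    (hx : (∀ y ∈ w, x < y) ∨ ∀ y ∈ w, y < x) : Avoids T0 (x :: w) := by
  refine (av _).2 fun a b c e => ?_
  rcases sublist_cons_iff.1 e with e | ⟨r, e1, e2⟩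
  · exact (av w).1 h a b c e
  · obtain ⟨rfl, rfl⟩ := cons.inj e1
    have hb := e2.subset (show b ∈ [b, c] by simp)
    have hc := e2.subset (show c ∈ [b, c] by simp)
    rcases hx with hx | hx <;> have := hx b hb <;> have := hx c hc <;> omega

theorem av_two (x y : ℕ) : Avoids T0 [x, y] :=
  (av _).2 fun a b c e => absurd e.length_le (by simp)

theorem av_ext {x : ℕ} {w : List ℕ} (h : Avoids T0 (x :: w)) (hx : x ∉ w) :
    (∀ y ∈ w, x < y) ∨ ∀ y ∈ w, y < x := by
  by_contra hh
  push Not at hh
  obtain ⟨⟨b, hb, b1⟩, c, hc, c1⟩ := hh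
  have b2 : b ≠ x := fun e => hx (e ▸ hb)
  have c2 : c ≠ x := fun e => hx (e ▸ hc)
  obtain ⟨l, t, rfl⟩ := append_of_mem hb
  rcases mem_append.1 hc with e | e
  · exact (av _).1 h x c b (((singleton_sublist.2 e).append
      ((nil_sublist t).cons_cons b)).cons_cons x) (by omega)
  · have : c ∈ t := by
      rcases mem_cons.1 e with e | e
      · omega
      · exact e
    exact (av _).1 h x b c ((((singleton_sublist.2 this).cons_cons b).trans
      (sublist_append_right _ _)).cons_cons x) (by omega)

theorem run_perm (T : Set (List ℕ)) (st inp : List ℕ) : (run T st inp).Perm (st ++ inp) := by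
  fun_induction run T st inp with
  | case1 st => simp
  | case2 x r ih => simpa using ih
  | case3 y st x r h ih => exact ih.trans (perm_middle (l₁ := y :: st)).symm
  | case4 y st x r h ih => exact ih.cons y

def Ord (r : ℕ → ℕ → Prop) : Prop := (∀ a b, r a b ↔ a < b) ∨ ∀ a b, r a b ↔ b < a

theorem stackA (r : ℕ → ℕ → Prop) (x : ℕ) (t st inp : List ℕ) (ht : ∀ y ∈ t, r x y) :
    ∀ l, st = l ++ x :: t → (∀ y ∈ inp, r x y) →
      ∃ l' t', run T0 st inp = l' ++ x :: t' ∧ ∀ y ∈ t', r x y := by
  fun_induction run T0 st inp with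
  | case1 st => exact fun l e _ => ⟨l, t, e, ht⟩
  | case2 z q ih => intro l e; simp at e
  | case3 y st z q h ih =>
    exact fun l e hi => ih (z :: l) (by rw [e]; rfl) fun y hy => hi y (mem_cons_of_mem _ hy)
  | case4 y st z q h ih =>
    intro l e hi
    cases l with
    | nil =>
      obtain ⟨rfl, rfl⟩ := cons.inj e
      refine ⟨[], _, rfl, fun u hu => ?_⟩
      rcases mem_append.1 ((run_perm _ _ _).subset hu) with e | e
      · exact ht u e
      · exact hi u e
    | cons a l =>
      obtain ⟨l', t', e1, e2⟩ := ih l (cons.inj e).2 hi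
      exact ⟨y :: l', t', by rw [e1]; rfl, e2⟩

theorem stackB {r : ℕ → ℕ → Prop} (hr : Ord r) (x : ℕ) (t st inp : List ℕ)
    (ht : ∀ y ∈ t, r y x) :
    ∀ l, st = l ++ x :: t → Avoids T0 st → (t = [] ∨ ∀ y ∈ inp, r x y) →
      ∃ l', run T0 st inp = l' ++ x :: t := by
  fun_induction run T0 st inp with
  | case1 st => exact fun l e _ _ => ⟨l, e⟩
  | case2 z q ih => intro l e; simp at e
  | case3 y st z q h ih =>
    exact fun l e _ hi => ih (z :: l) (by rw [e]; rfl) h
      (hi.imp id fun hi y hy => hi y (mem_cons_of_mem _ hy))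
  | case4 y st z q h ih =>
    intro l e ha hi
    cases l with
    | nil =>
      obtain ⟨rfl, rfl⟩ := cons.inj e
      exfalso
      rcases hi with rfl | hi
      · exact h (av_two _ _)
      have hz := hi z (by simp)
      refine h (av_cons ha ?_)
      rcases hr with hr | hr <;> simp only [hr] at ht hz
      · refine Or.inr fun u hu => ?_
        rcases mem_cons.1 hu with rfl | e
        · exact hz
        · exact (ht u e).trans hz
      · refine Or.inl fun u hu => ?_
        rcases mem_cons.1 hu with rfl | e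
        · exact hz
        · exact hz.trans (ht u e)
    | cons a l =>
      obtain ⟨l', e1⟩ := ih l (cons.inj e).2 (av_sub ha (sublist_cons_self _ _)) hi
      exact ⟨y :: l', by rw [e1]; rfl⟩

def Good (x : ℕ) (w : List ℕ) : Prop :=
  ∃ l t, w = l ++ x :: t ∧ ((∀ y ∈ t, x < y) ∨ ∀ y ∈ t, y < x)

theorem inpG {r : ℕ → ℕ → Prop} (hr : Ord r) (x : ℕ) (t st inp : List ℕ) (ht : ∀ y ∈ t, r x y) :
    ∀ l, inp = l ++ x :: t → Avoids T0 st → x ∉ st → x ∉ l → Good x (run T0 st inp) := by
  have fin : ∀ st, Avoids T0 (x :: st) → x ∉ st → Good x (run T0 (x :: st) t) := by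
    intro st ha hx
    have : (∀ y ∈ st, r x y) ∨ ∀ y ∈ st, r y x := by
      rcases hr with hr | hr <;> simp only [hr]
      · exact av_ext ha hx
      · exact (av_ext ha hx).symm
    rcases this with h | h
    · obtain ⟨l', t', e1, e2⟩ := stackA r x st _ t h [] rfl ht
      refine ⟨l', t', e1, ?_⟩
      rcases hr with hr | hr <;> simp only [hr] at e2
      · exact Or.inl e2
      · exact Or.inr e2
    · obtain ⟨l', e1⟩ := stackB hr x st _ t h [] rfl ha (Or.inr ht)
      exact ⟨l', st, e1, av_ext ha hx⟩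
  fun_induction run T0 st inp with
  | case1 st => intro l e; simp at e
  | case2 z q ih =>
    intro l e ha h1 h2
    have a1 : Avoids T0 [z] := av_sub (av_two z z) (by simp)
    cases l with
    | nil => obtain ⟨rfl, rfl⟩ := cons.inj e; exact fin [] a1 (by simp)
    | cons a l =>
      obtain ⟨rfl, rfl⟩ := cons.inj e
      simp only [mem_cons, not_or] at h2
      exact ih l rfl a1 (by simp [h2.1]) h2.2
  | case3 y st z q h ih =>
    intro l e ha h1 h2
    cases l with
    | nil => obtain ⟨rfl, rfl⟩ := cons.inj e; exact fin _ h h1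
    | cons a l =>
      obtain ⟨rfl, rfl⟩ := cons.inj e
      simp only [mem_cons, not_or] at h2
      exact ih l rfl h (fun e => (mem_cons.1 e).elim h2.1 h1) h2.2
  | case4 y st z q h ih =>
    intro l e ha h1 h2
    obtain ⟨l', t', e1, e2⟩ := ih l e (av_sub ha (sublist_cons_self _ _))
      (fun e => h1 (mem_cons_of_mem _ e)) h2
    exact ⟨y :: l', t', by rw [e1]; rfl, e2⟩

theorem good_s {x : ℕ} {w : List ℕ} (hw : w.Nodup) (h : Good x w) : Good x (sortMap T0 w) := by
  obtain ⟨l, t, rfl, h⟩ := h
  have hl : x ∉ l := fun e => (nodup_append.1 hw).2.2 x e x (by simp) rfl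
  have a0 : Avoids T0 [] := av_sub (av_two 0 0) (by simp)
  rcases h with h | h
  · exact inpG (r := (· < ·)) (Or.inl fun _ _ => Iff.rfl) x t [] _ h l rfl a0 (by simp) hl
  · exact inpG (r := (· > ·)) (Or.inr fun _ _ => Iff.rfl) x t [] _ h l rfl a0 (by simp) hl

theorem last_s (b : ℕ) (w : List ℕ) : ∃ l, sortMap T0 (b :: w) = l ++ [b] := by
  rw [sortMap, run]
  exact stackB (r := (· < ·)) (Or.inl fun _ _ => Iff.rfl) b [] [b] w (by simp) [] rfl
    (av_sub (av_two b b) (by simp)) (Or.inl rfl)

theorem first (c : ℕ) (st inp : List ℕ) : ∀ l, inp = l ++ [c] → c ∉ st → c ∉ l →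
    (run T0 st inp).head? = some c → Avoids T0 st → Avoids T0 (inp.reverse ++ st) := by
  fun_induction run T0 st inp with
  | case1 st => intro l e; simp at e
  | case2 z q ih =>
    intro l e h1 h2 h3 _
    have a1 : Avoids T0 [z] := av_sub (av_two z z) (by simp)
    cases l with
    | nil => obtain ⟨rfl, rfl⟩ := cons.inj e; simpa using a1
    | cons a l =>
      obtain ⟨rfl, rfl⟩ := cons.inj e
      simp only [mem_cons, not_or] at h2
      simpa using ih l rfl (by simp [h2.1]) h2.2 h3 a1
  | case3 y st z q h ih =>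
    intro l e h1 h2 h3 _
    cases l with
    | nil => obtain ⟨rfl, rfl⟩ := cons.inj e; simpa using h
    | cons a l =>
      obtain ⟨rfl, rfl⟩ := cons.inj e
      simp only [mem_cons, not_or] at h2
      simpa using ih l rfl (fun e => (mem_cons.1 e).elim h2.1 h1) h2.2 h3 h
  | case4 y st z q h ih =>
    intro l e h1 h2 h3 _
    simp only [head?_cons, Option.some.injEq] at h3
    exact absurd (h3 ▸ mem_cons_self) h1

theorem allpush (st inp : List ℕ) :
    Avoids T0 (inp.reverse ++ st) → run T0 st inp = inp.reverse ++ st := by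
  fun_induction run T0 st inp with
  | case1 st => simp
  | case2 z q ih => intro h; simpa using ih (by simpa using h)
  | case3 y st z q h ih => intro h; simpa using ih (by simpa using h)
  | case4 y st z q h ih => intro h'; exact absurd (av_sub h' (by simp)) h

theorem s_perm (k : ℕ) (w : List ℕ) : ((sortMap T0)^[k] w).Perm w := by
  induction k with
  | zero => rfl
  | succ k ih => rw [Function.iterate_succ_apply']; exact (run_perm _ _ _).trans ih

theorem ext_head {b m : ℕ} {w : List ℕ} (hw : (b :: w).Nodup)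
    (h : (sortMap T0)^[m + 1] (b :: w) = b :: w) : (∀ y ∈ w, b < y) ∨ ∀ y ∈ w, y < b := by
  have : ∀ k, Good b ((sortMap T0)^[k + 1] (b :: w)) := by
    intro k
    induction k with
    | zero => obtain ⟨l, e⟩ := last_s b w; exact ⟨l, [], e, by simp⟩
    | succ k ih =>
      rw [Function.iterate_succ_apply']
      exact good_s ((s_perm _ _).nodup_iff.2 hw) ih
  obtain ⟨l, t, e, g⟩ := h ▸ this m
  cases l with
  | nil => rwa [(cons.inj e).2]
  | cons a l => exact absurd ((cons.inj e).2 ▸ by simp) (nodup_cons.1 hw).1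

theorem mono {m : ℕ} {w : List ℕ} (hw : w.Nodup) (h : (sortMap T0)^[m + 1] w = w) :
    w.Pairwise (· < ·) ∨ w.Pairwise (· > ·) := by
  have E : ∀ k b u, (sortMap T0)^[k] w = b :: u →
      (∀ y ∈ w, b ≤ y) ∨ ∀ y ∈ w, y ≤ b := by
    intro k b u e
    have p := e ▸ s_perm k w
    have := ext_head (m := m) (p.nodup_iff.2 hw) (by
      rw [← e, ← Function.iterate_add_apply, add_comm, Function.iterate_add_apply, h])
    refine this.imp (fun g y hy => ?_) (fun g y hy => ?_) <;>
      rcases mem_cons.1 (p.symm.subset hy) with rfl | e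
    exacts [le_rfl, (g y e).le, le_rfl, (g y e).le]
  rcases w with _ | ⟨b, w⟩
  · simp
  rcases eq_nil_or_concat w with rfl | ⟨l, c, rfl⟩
  · simp
  rw [concat_eq_append] at *
  have hbc : b ≠ c := fun e => (nodup_cons.1 hw).1 (by simp [e])
  have hcl : c ∉ l := fun e => (nodup_append.1 (nodup_cons.1 hw).2).2.2 c e c (by simp) rfl
  have Eb := E 0 b _ rfl
  have Ec : (∀ y ∈ b :: (l ++ [c]), c ≤ y) ∨ ∀ y ∈ b :: (l ++ [c]), y ≤ c := by
    rcases e : (sortMap T0)^[m] (b :: (l ++ [c])) with _ | ⟨c', u⟩
    · have := (s_perm m (b :: (l ++ [c]))).length_eq; rw [e] at this; simp at this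
    · obtain ⟨l', e'⟩ := last_s c' u
      rw [Function.iterate_succ_apply', e, e', ← cons_append] at h
      obtain rfl := singleton_injective (append_inj_right' h rfl)
      exact E m c' u e
  have hd : (sortMap T0 (b :: (l ++ [c]))).head? = some c := by
    have p := s_perm 1 (b :: (l ++ [c]))
    obtain ⟨l', e'⟩ := last_s b (l ++ [c])
    rw [Function.iterate_one, e'] at p
    cases l' with
    | nil => have := p.length_eq; simp at this
    | cons d u =>
      have Ed := E 1 d _ e'
      have hd := p.subset (show d ∈ d :: u ++ [b] by simp)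
      have hdb : d ≠ b := fun e => (nodup_cons.1 (p.nodup_iff.2 hw)).1 (by simp [e])
      rw [e']
      simp only [cons_append, head?_cons, Option.some.injEq]
      rcases Eb with Eb | Eb <;> rcases Ec with Ec | Ec <;> rcases Ed with Ed | Ed <;>
        have := Eb c (by simp) <;> have := Eb d hd <;> have := Ec b (by simp) <;>
        have := Ec d hd <;> have := Ed b (by simp) <;> have := Ed c (by simp) <;> omega
  have A : Avoids T0 ((b :: (l ++ [c])).reverse ++ []) :=
    first c [] _ (b :: l) rfl (by simp) (by simp [hcl, hbc.symm]) hd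
    (av_sub (av_two 0 0) (by simp))
  generalize l ++ [c] = u at *
  have K : ∀ x y, [x, y].Sublist u → x ≠ y ∧ x ≠ b ∧ y ≠ b ∧ x ∈ b :: u ∧ y ∈ b :: u ∧
      ¬ ((x < y ∧ y < b) ∨ (b < y ∧ y < x)) := by
    intro x y s
    have n := (s.cons_cons b).nodup hw
    have := (av _).1 A y x b (by simpa using (s.cons_cons b).reverse)
    have hx := s.subset (show x ∈ [x, y] by simp)
    have hy := s.subset (show y ∈ [x, y] by simp)
    simp only [nodup_cons, mem_cons, not_or] at n
    exact ⟨n.2.1.1, Ne.symm n.1.1, Ne.symm n.1.2.1, by simp [hx], by simp [hy], this⟩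
  have nb : ∀ y ∈ u, y ≠ b := fun y hy e => (nodup_cons.1 hw).1 (e ▸ hy)
  refine Eb.imp (fun g => pairwise_cons.2 ⟨fun y hy => ?_, pairwise_iff_forall_sublist.2 ?_⟩)
    (fun g => pairwise_cons.2 ⟨fun y hy => ?_, pairwise_iff_forall_sublist.2 ?_⟩)
  · have := g y (by simp [hy]); have := nb y hy; omega
  · intro x y s
    obtain ⟨k1, k2, k3, k4, k5, k6⟩ := K x y s
    have := g x k4; have := g y k5; omega
  · have := g y (by simp [hy]); have := nb y hy; omega
  · intro x y s
    obtain ⟨k1, k2, k3, k4, k5, k6⟩ := K x y s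
    have := g x k4; have := g y k5; omega

theorem result (n : ℕ) (w : List ℕ) (hw : w.Perm (List.range' 1 n)) :
    (∃ m, 1 ≤ m ∧ (sortMap {[2, 3, 1], [2, 1, 3]})^[m] w = w) ↔
      (w = List.range' 1 n ∨ w = (List.range' 1 n).reverse) := by
  have P : (List.range' 1 n).Pairwise (· < ·) := pairwise_lt_range'
  constructor
  · rintro ⟨m, hm, h⟩
    obtain ⟨m, rfl⟩ : ∃ k, m = k + 1 := ⟨m - 1, by omega⟩
    refine (mono (hw.nodup_iff.2 nodup_range') h).imp (fun g => ?_) (fun g => ?_)
    · exact hw.eq_of_pairwise (fun a b _ _ h1 h2 => absurd h1 (not_lt.2 h2.le)) g P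
    · exact (hw.trans (reverse_perm _).symm).eq_of_pairwise
        (fun a b _ _ h1 h2 => absurd h1 (not_lt.2 h2.le)) g (pairwise_reverse.2 P)
  · have a1 : Avoids T0 (List.range' 1 n) := (av _).2 fun a b c s => by
      have := P.sublist s
      simp at this; omega
    have a2 : Avoids T0 (List.range' 1 n).reverse := (av _).2 fun a b c s => by
      have := (pairwise_reverse.2 P : List.Pairwise (· > ·) _).sublist s
      simp at this; omega
    have s1 : sortMap T0 (List.range' 1 n) = (List.range' 1 n).reverse := by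
      simpa [sortMap] using allpush [] (List.range' 1 n) (by simpa using a2)
    have s2 : sortMap T0 (List.range' 1 n).reverse = List.range' 1 n := by
      simpa [sortMap] using allpush [] (List.range' 1 n).reverse (by simpa using a1)
    rintro (rfl | rfl)
    · exact ⟨2, by simp, show sortMap T0 (sortMap T0 _) = _ by rw [s1, s2]⟩
    · exact ⟨2, by simp, show sortMap T0 (sortMap T0 _) = _ by rw [s2, s1]⟩

end Pool.Agent.Results.MP_cfa423_co.First
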